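import Pool.Agent.Q231.CP.Triple

/-! Generic rigidity of cartesian products of many connected graphs. -/

set_option autoImplicit false

namespace Pool.Agent.Results.MP_37c7bf_co.CartesianProducts

open Finset Pool.Agent.H283R2.DR Pool.Agent.Q231.CP

/-- **Cartesian products of many connected graphs.** `Suffices d m` says that every cartesian
product of at least `m` connected graphs with at least two vertices each is generically rigid in
`ℝ^d`. In `ℝ³` six factors suffice and five do not, in the plane four suffice and three do not. In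
`ℝ^d`, `d ≥ 2`, at least `2 d` factors are needed, `3 d` suffice, and `m` suffice as soon as
`2 d + √(m log m) ≤ m`. -/
theorem result :
    IsLeast {m | Suffices 3 m} 6 ∧
    IsLeast {m | Suffices 2 m} 4 ∧
    (∀ d m : ℕ, 2 ≤ d → Suffices d m → 2 * d ≤ m) ∧
    (∀ d : ℕ, Suffices d (3 * d)) ∧
    (∀ d m : ℕ, (2 * d : ℝ) + √(m * Real.log m) ≤ m → Suffices d m) ∧
    (Suffices 4 9 ∧ Suffices 5 11 ∧ Suffices 6 13) := by
  have hlow : ∀ d m : ℕ, 2 ≤ d → Suffices d m → 2 * d ≤ m := by
    intro d m hd h
    by_contra hm
    exact not_suffices hd (suffices_mono h (by omega))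
  obtain ⟨-, h2, h3, h4, h5, h6, -⟩ := suffices_small
  exact ⟨⟨h3, fun m hm => hlow 3 m (by norm_num) hm⟩,
    ⟨h2, fun m hm => hlow 2 m (by norm_num) hm⟩, hlow, suffices_triple,
    fun d m h => suffices_of_log h, h4, h5, h6⟩

end Pool.Agent.Results.MP_37c7bf_co.CartesianProducts
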