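import Pool.Agent.Q139.Car.Sharp

/-! Generic rigidity in `ℝ³` of Cartesian products whose factors may have cycles. -/

set_option autoImplicit false

namespace Pool.Agent.Results.MP_37c7bf_co.ProductsWithCycles

open Finset Pool.Agent.H283R2.DR Pool.Agent.Q139.Car

/-- **Cartesian products in `ℝ³`, factors with a cycle counted twice.** Let `G` be a finite family
of finite connected graphs with at least two vertices each. If the number of factors plus the
number of factors that are not trees is at least six, then the Cartesian product is generically
rigid in `ℝ³`; in particular the product of three connected graphs with cycles is. This is sharp: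
if every factor is a single edge or a cycle (connected and regular of degree one or two) and the
product has at least four vertices, it is generically rigid in `ℝ³` if and only if the degrees of
the factors add up to at least six. -/
theorem result :
    (∀ (ι : Type) [Fintype ι] (V : ι → Type) [∀ i, Fintype (V i)] (G : ∀ i, SimpleGraph (V i)),
      (∀ i, (G i).Connected) → (∀ i, Nontrivial (V i)) →
      6 ≤ Fintype.card ι + Nat.card {i // ¬ (G i).IsAcyclic} → GenRigid 3 (cart G)) ∧
    (∀ (ι : Type) [Fintype ι] (V : ι → Type) [∀ i, Fintype (V i)] (G : ∀ i, SimpleGraph (V i))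
      (r : ι → ℕ), (∀ i, (G i).Connected) → (∀ i, r i = 1 ∨ r i = 2) →
      (∀ i x, Nat.card {y // (G i).Adj x y} = r i) → 4 ≤ Nat.card (∀ i, V i) →
      (GenRigid 3 (cart G) ↔ 6 ≤ ∑ i, r i)) := by
  classical
  refine ⟨fun _ _ _ _ _ hG hn hw => rigid_weights hG hn hw,
    fun _ _ _ _ _ r hG hr hreg h4 => sharp hG r hr hreg ?_⟩
  rwa [← Nat.card_eq_fintype_card]

end Pool.Agent.Results.MP_37c7bf_co.ProductsWithCycles
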