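import Pool.Agent.Q126.RS5

/-! Generic rigidity in three dimensions of the strong products of connected graphs. -/

set_option autoImplicit false

namespace Pool.Agent.Results.MP_37c7bf_co.StrongProducts

open Finset Pool.Agent.H789R5 Pool.Agent.H283R2.DR Pool.Agent.TH349.Rig Pool.Agent.Q126.RS

/-- the number of edges of a strong product -/
theorem edges_strong {α β : Type} [Fintype α] [Fintype β] (G : SimpleGraph α)
    (H : SimpleGraph β) :
    2 * (strong G H).edgeSet.ncard + Fintype.card α * Fintype.card β =
      (2 * G.edgeSet.ncard + Fintype.card α) * (2 * H.edgeSet.ncard + Fintype.card β) := by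
  classical
  have hdeg : ∀ x : α × β, (strong G H).degree x + 1 = (G.degree x.1 + 1) * (H.degree x.2 + 1) := by
    intro x
    have h1 : insert x ((strong G H).neighborFinset x) =
        (insert x.1 (G.neighborFinset x.1)) ×ˢ (insert x.2 (H.neighborFinset x.2)) := by
      ext y
      rw [mem_insert, mem_product, mem_insert, mem_insert, SimpleGraph.mem_neighborFinset,
        SimpleGraph.mem_neighborFinset, SimpleGraph.mem_neighborFinset]
      constructor
      · rintro (rfl | ⟨-, h2, h3⟩)
        · exact ⟨Or.inl rfl, Or.inl rfl⟩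
        · exact ⟨h2.imp Eq.symm id, h3.imp Eq.symm id⟩
      · rintro ⟨h2, h3⟩
        by_cases hyx : y = x
        · exact Or.inl hyx
        · exact Or.inr ⟨fun h => hyx h.symm, h2.imp Eq.symm id, h3.imp Eq.symm id⟩
    have h2 := congrArg Finset.card h1
    rw [card_product, card_insert_of_notMem, card_insert_of_notMem, card_insert_of_notMem] at h2
    · exact h2
    · rw [SimpleGraph.mem_neighborFinset]; exact fun h => h.ne rfl
    · rw [SimpleGraph.mem_neighborFinset]; exact fun h => h.ne rfl
    · rw [SimpleGraph.mem_neighborFinset]; exact fun h => h.ne rfl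
  have key : ∀ {γ : Type} [Fintype γ] (K : SimpleGraph γ),
      ∑ v : γ, (K.degree v + 1) = 2 * K.edgeSet.ncard + Fintype.card γ := by
    intro γ _ K
    rw [sum_add_distrib, K.sum_degrees_eq_twice_card_edges, sum_const, card_univ, smul_eq_mul,
      mul_one, ← K.coe_edgeFinset, Set.ncard_coe_finset]
  have h1 := key (strong G H)
  rw [sum_congr rfl fun x _ => hdeg x, Fintype.card_prod] at h1
  rw [← h1, ← key G, ← key H, sum_mul_sum, Fintype.sum_prod_type]

theorem tree_edges {α : Type} [Fintype α] {G : SimpleGraph α} (hG : G.Connected) :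
    Fintype.card α ≤ G.edgeSet.ncard + 1 ∧
      (G.edgeSet.ncard + 1 = Fintype.card α ↔ G.IsTree) := by
  have h1 := hG.card_vert_le_card_edgeSet_add_one
  rw [Nat.card_eq_fintype_card, Nat.card_coe_set_eq] at h1
  refine ⟨h1, ?_⟩
  rw [SimpleGraph.isTree_iff_connected_and_card, Nat.card_coe_set_eq, Nat.card_eq_fintype_card]
  exact ⟨fun h => ⟨hG, h⟩, fun h => h.2⟩

/-- **Strong products.** Let `G` and `H` be connected graphs with at least three vertices each, and
let `n` be the number of vertices of the strong product. The generic rank of the strong product in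
`ℝ³` is the minimum of its number of edges and `3 n - 6`. It is generically rigid in `ℝ³` if and
only if it has at least `3 n - 6` edges, and this fails only if `G` and `H` are trees and one of
them has exactly three vertices. It is generically rigid with exactly `3 n - 6` edges if and only if
`G` and `H` are trees with four vertices. -/
theorem result (α β : Type) [Fintype α] [Fintype β] (G : SimpleGraph α) (H : SimpleGraph β)
    (hG : G.Connected) (hH : H.Connected) (h3 : 3 ≤ Fintype.card α) (h3' : 3 ≤ Fintype.card β) :
    genRank 3 (strong G H) =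
      min (strong G H).edgeSet.ncard (3 * (Fintype.card α * Fintype.card β) - 6) ∧
    (GenRigid 3 (strong G H) ↔
      3 * (Fintype.card α * Fintype.card β) ≤ (strong G H).edgeSet.ncard + 6) ∧
    (GenRigid 3 (strong G H) ↔
      ¬ (G.IsTree ∧ H.IsTree ∧ (Fintype.card α = 3 ∨ Fintype.card β = 3))) ∧
    (GenRigid 3 (strong G H) ∧
        (strong G H).edgeSet.ncard + 6 = 3 * (Fintype.card α * Fintype.card β) ↔
      G.IsTree ∧ H.IsTree ∧ Fintype.card α = 4 ∧ Fintype.card β = 4) := by
  classical
  obtain ⟨p, hp⟩ := exists_mg (α × β) 3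
  set m := Fintype.card α with hm
  set m' := Fintype.card β with hm'
  have hn : Fintype.card (α × β) = m * m' := Fintype.card_prod α β
  have h9 : 9 ≤ m * m' := Nat.mul_le_mul h3 h3'
  have hbx : bx (V := α × β) (fun a b => (a, b)) univ univ = univ := by
    ext x
    rw [mem_bx]
    exact ⟨fun _ => mem_univ _, fun _ => ⟨x.1, mem_univ _, x.2, mem_univ _, rfl⟩⟩
  have hemb := strong_emb G H
  have hrank := genRank_add hp (strong G H)
  have hiff := genRigid_iff hp (by rw [hn]; omega) (strong G H)
  have hlow := six_le hp (by rw [hn]; omega) (strong G H)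
  have hle := rank_le_edges (strong G H) p
  rw [hn] at hrank hle
  have hedges := edges_strong G H
  obtain ⟨t1, t2⟩ := tree_edges hG
  obtain ⟨t1', t2'⟩ := tree_edges hH
  rw [← hm, ← hm'] at hedges
  have hiff' : GenRigid 3 (strong G H) ↔ mo (strong G H) p ≤ 6 := hiff
  -- the arithmetic of the number of edges
  obtain ⟨u, hu⟩ := Nat.exists_eq_add_of_le h3
  obtain ⟨v, hv⟩ := Nat.exists_eq_add_of_le h3'
  obtain ⟨c, hc⟩ := Nat.exists_eq_add_of_le t1
  obtain ⟨c', hc'⟩ := Nat.exists_eq_add_of_le t1'
  have hE : G.edgeSet.ncard = 2 + u + c := by omega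
  have hE' : H.edgeSet.ncard = 2 + v + c' := by omega
  have harith : (strong G H).edgeSet.ncard + 7 = 3 * (m * m') + (u * v + 7 * c + 7 * c' +
      3 * (u * c') + 3 * (v * c) + 2 * (c * c')) := by
    rw [hE, hE', hu, hv] at hedges
    rw [hu, hv]
    nlinarith
  have htree : G.IsTree ↔ c = 0 := by rw [← t2]; omega
  have htree' : H.IsTree ↔ c' = 0 := by rw [← t2']; omega
  have hfour : ((strong G H).edgeSet.ncard + 6 = 3 * (m * m') ↔
      G.IsTree ∧ H.IsTree ∧ m = 4 ∧ m' = 4) := by
    rw [htree, htree']
    constructor
    · intro h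
      have h1 : u * v = 1 ∧ c = 0 ∧ c' = 0 := by
        have := Nat.zero_le (u * c')
        have := Nat.zero_le (v * c)
        have := Nat.zero_le (c * c')
        omega
      obtain ⟨h2, h3, h4⟩ := h1
      obtain ⟨h5, h6⟩ := mul_eq_one.1 h2
      exact ⟨h3, h4, by omega, by omega⟩
    · rintro ⟨rfl, rfl, h4, h4'⟩
      obtain rfl : u = 1 := by omega
      obtain rfl : v = 1 := by omega
      omega
  by_cases hex : G.IsTree ∧ H.IsTree ∧ (m = 3 ∨ m' = 3)
  · have hmo : mo (strong G H) p ≤ 7 := by
      have h := one_dof hp hG hH h3 h3' hemb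
      rw [hbx] at h
      exact rt_univ h
    have huv : u * v = 0 := by
      rcases hex.2.2 with h | h
      · have : u = 0 := by omega
        rw [this, zero_mul]
      · have : v = 0 := by omega
        rw [this, mul_zero]
    have hcc := htree.1 hex.1
    have hcc' := htree'.1 hex.2.1
    rw [huv, hcc, hcc'] at harith
    simp only [mul_zero, add_zero] at harith
    have hmo7 : mo (strong G H) p = 7 := by omega
    have hnr : ¬ GenRigid 3 (strong G H) := by rw [hiff']; omega
    refine ⟨by omega, ⟨fun h => absurd h hnr, fun h => by omega⟩,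
      ⟨fun h => absurd h hnr, fun h => absurd hex h⟩, ⟨fun h => absurd h.1 hnr, fun h => ?_⟩⟩
    have := h.2.2
    have := hex.2.2
    omega
  · have hmo : mo (strong G H) p ≤ 6 := by
      by_cases hH' : H.IsAcyclic
      · by_cases hG' : G.IsAcyclic
        · have hGt : G.IsTree := ⟨hG, hG'⟩
          have hHt : H.IsTree := ⟨hH, hH'⟩
          have h4 : 4 ≤ m ∧ 4 ≤ m' := by
            by_contra hcon
            exact hex ⟨hGt, hHt, by omega⟩
          have h := rigid_four hp hG hH h4.1 h4.2 hemb
          rw [hbx] at h
          exact rt_univ h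
        · have h := rigid_cycle hp hH hG h3' h3 hemb.swap hG'
          rw [bx_swap, hbx] at h
          exact rt_univ h
      · have h := rigid_cycle hp hG hH h3 h3' hemb hH'
        rw [hbx] at h
        exact rt_univ h
    have hr : GenRigid 3 (strong G H) := hiff'.2 hmo
    refine ⟨by omega, ⟨fun _ => by omega, fun _ => hr⟩, ⟨fun _ => hex, fun _ => hr⟩, ?_⟩
    rw [hfour]
    exact ⟨fun h => h.2, fun h => ⟨hr, h⟩⟩

end Pool.Agent.Results.MP_37c7bf_co.StrongProducts
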