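import Mathlib
import Pool.Agent.Q231.VT.ArcTwo
import Pool.Agent.Q231.VT.Sharp

/-!
# Generic rigidity of vertex-transitive and of arc-transitive graphs

A connected finite vertex-transitive graph of degree at least `d (d + 1)` is generically rigid in
`d`-space, and `d (d + 1)` cannot be replaced by `d (d + 1) - 1` for any `d ≥ 2`. For
arc-transitive graphs a little more than half of this degree is enough, and degree nine is enough
in three-space.
-/

set_option autoImplicit false

namespace Pool.Agent.Results.MP_37c7bf_co.VertexTransitive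

open Pool.Agent.H283R2.DR Pool.Agent.Q231.VT

theorem result :
    (∀ (d : ℕ) (V : Type) [Fintype V] (G : SimpleGraph V) [DecidableRel G.Adj],
      G.Connected → VertexTransitive G → (∀ v, d * (d + 1) ≤ G.degree v) → GenRigid d G) ∧
    (∀ d : ℕ, 2 ≤ d → ∃ (V : Type) (_ : Fintype V) (G : SimpleGraph V) (_ : DecidableRel G.Adj),
      G.Connected ∧ VertexTransitive G ∧ (∀ v, G.degree v = d * (d + 1) - 1) ∧ ¬ GenRigid d G) ∧
    (∀ (d : ℕ) (V : Type) [Fintype V] (G : SimpleGraph V) [DecidableRel G.Adj], 1 ≤ d →
      G.Connected → ArcTransitive G → (∀ v, d * (d + 3) < 2 * G.degree v) → GenRigid d G) ∧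
    (∀ (V : Type) [Fintype V] (G : SimpleGraph V) [DecidableRel G.Adj],
      G.Connected → ArcTransitive G → (∀ v, 9 ≤ G.degree v) → GenRigid 3 G) := by
  refine ⟨?_, ?_, ?_, ?_⟩
  · intro d V _ G _ hG ht hd
    exact vt_rigid G hG ht hd
  · intro d hd
    refine ⟨_, inferInstance, trunc (d * (d + 1) - 1), inferInstance,
      trunc_connected ?_, trunc_transitive _, fun v => trunc_degree ?_ v, trunc_not_rigid hd⟩
    · have : 6 ≤ d * (d + 1) := by nlinarith
      omega
    · have : 6 ≤ d * (d + 1) := by nlinarith
      omega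
  · intro d V _ G _ hd hG ha h
    exact arc_rigid_gen hd hG ha fun v => h v
  · intro V _ G _ hG ha h
    exact arc_rigid_three hG ha h

end Pool.Agent.Results.MP_37c7bf_co.VertexTransitive
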